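import Mathlib

/-!
# A finite connected conjugation quandle without a regular cycle

A finite group `G` generated by a conjugacy class `C`, and `c ∈ C`, such that for every `z ∈ C`
some power of `c` commutes with `z` without being central. Here `G` is the wreath product of a
cyclic group of order 105 with the symmetric group on four letters and `c = (v; (0 1))` with
`v = (0, 0, 36, 85)`. The powers `c ^ 70`, `c ^ 126`, `c ^ 120` are the vectors `(0,0,0,70)`,
`(0,0,21,0)`, `(0,0,15,15)`. A member `z` of the class of `c` lies over a transposition `t`, and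
`z` commutes with a vector fixed by `t`. The three vectors are fixed by the transpositions in
`Sym {0,1,2}`, in `Sym {0,1,3}` and by `(0 1), (2 3)`, and these are all the transpositions.
-/

namespace Pool.Agent.Results.MP_d14d1f_al.NoRegularCycle

/-- the base group -/
abbrev V := Fin 4 → Multiplicative (ZMod 105)

/-- the wreath product -/
abbrev W := V ⋊[mulAutArrow] Equiv.Perm (Fin 4)

/-- the vector `(0,0,36,85)` -/
def v0 : V := ![Multiplicative.ofAdd 0, Multiplicative.ofAdd 0, Multiplicative.ofAdd 36,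
  Multiplicative.ofAdd 85]

def u1 : V := ![Multiplicative.ofAdd 0, Multiplicative.ofAdd 0, Multiplicative.ofAdd 0,
  Multiplicative.ofAdd 70]
def u2 : V := ![Multiplicative.ofAdd 0, Multiplicative.ofAdd 0, Multiplicative.ofAdd 21,
  Multiplicative.ofAdd 0]
def u3 : V := ![Multiplicative.ofAdd 0, Multiplicative.ofAdd 0, Multiplicative.ofAdd 15,
  Multiplicative.ofAdd 15]

/-- the element of the class -/
def c0 : W := ⟨v0, Equiv.swap 0 1⟩

theorem act_apply (σ : Equiv.Perm (Fin 4)) (f : V) (i : Fin 4) :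
    (mulAutArrow σ f) i = f (σ⁻¹ i) := rfl

theorem swap_fix : (mulAutArrow (Equiv.swap (0 : Fin 4) 1) v0 : V) = v0 := by
  funext i
  fin_cases i <;> rfl

theorem c0_sq : c0 ^ 2 = SemidirectProduct.inl (v0 ^ 2) := by
  rw [pow_two, pow_two]
  apply SemidirectProduct.ext
  · show v0 * (mulAutArrow (Equiv.swap (0 : Fin 4) 1) v0 : V) = v0 * v0
    rw [swap_fix]
  · show Equiv.swap (0 : Fin 4) 1 * Equiv.swap 0 1 = 1
    simp

set_option maxRecDepth 20000 in
theorem pow_u1 : (v0 ^ 2) ^ 35 = u1 := by
  rw [← pow_mul]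
  funext i
  apply Multiplicative.toAdd.injective
  rw [Pi.pow_apply, toAdd_pow]
  revert i
  decide

theorem c0_u1 : c0 ^ 70 = SemidirectProduct.inl u1 := by
  rw [show (70 : ℕ) = 2 * 35 from rfl, pow_mul, c0_sq, ← map_pow, pow_u1]

set_option maxRecDepth 20000 in
theorem pow_u2 : (v0 ^ 2) ^ 63 = u2 := by
  rw [← pow_mul]
  funext i
  apply Multiplicative.toAdd.injective
  rw [Pi.pow_apply, toAdd_pow]
  revert i
  decide

theorem c0_u2 : c0 ^ 126 = SemidirectProduct.inl u2 := by
  rw [show (126 : ℕ) = 2 * 63 from rfl, pow_mul, c0_sq, ← map_pow, pow_u2]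

set_option maxRecDepth 20000 in
theorem pow_u3 : (v0 ^ 2) ^ 60 = u3 := by
  rw [← pow_mul]
  funext i
  apply Multiplicative.toAdd.injective
  rw [Pi.pow_apply, toAdd_pow]
  revert i
  decide

theorem c0_u3 : c0 ^ 120 = SemidirectProduct.inl u3 := by
  rw [show (120 : ℕ) = 2 * 60 from rfl, pow_mul, c0_sq, ← map_pow, pow_u3]

theorem commute_inl_iff (u : V) (z : W) (h : mulAutArrow z.right u = u) :
    Commute (SemidirectProduct.inl u : W) z := by
  rw [commute_iff_eq]
  ext i
  · simp only [SemidirectProduct.mul_left, SemidirectProduct.left_inl,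
      SemidirectProduct.right_inl, map_one, MulAut.one_apply, h]
    rw [mul_comm]
  · simp

theorem cover (σ : Equiv.Perm (Fin 4)) :
    (∀ i : Fin 4, u1 ((σ * Equiv.swap (0 : Fin 4) 1 * σ⁻¹)⁻¹ i) = u1 i) ∨
    (∀ i : Fin 4, u2 ((σ * Equiv.swap (0 : Fin 4) 1 * σ⁻¹)⁻¹ i) = u2 i) ∨
    (∀ i : Fin 4, u3 ((σ * Equiv.swap (0 : Fin 4) 1 * σ⁻¹)⁻¹ i) = u3 i) := by
  revert σ
  decide

theorem conj_inl (σ : Equiv.Perm (Fin 4)) (u : V) :
    (SemidirectProduct.inr σ : W) * SemidirectProduct.inl u * (SemidirectProduct.inr σ)⁻¹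
      = SemidirectProduct.inl (mulAutArrow σ u) := by
  rw [SemidirectProduct.inl_aut, map_inv]

theorem not_central (u : V) (σ : Equiv.Perm (Fin 4)) (i : Fin 4) (h : u (σ⁻¹ i) ≠ u i) :
    (SemidirectProduct.inl u : W) ∉ Subgroup.center W := by
  intro hc
  rw [Subgroup.mem_center_iff] at hc
  have h1 := hc (SemidirectProduct.inr σ)
  apply h
  have h2 : (SemidirectProduct.inl (mulAutArrow σ u) : W) = SemidirectProduct.inl u := by
    rw [← conj_inl, h1, mul_assoc, mul_inv_cancel, mul_one]
  have h3 := SemidirectProduct.inl_injective h2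
  exact congrFun h3 i

theorem closure_top : Subgroup.closure (conjugatesOf c0) = (⊤ : Subgroup W) := by
  have hN : Subgroup.closure (conjugatesOf c0) = Subgroup.normalClosure {c0} := by
    rw [Subgroup.normalClosure, Group.conjugatesOfSet]
    simp
  rw [hN]
  set N := Subgroup.normalClosure ({c0} : Set W) with hNdef
  have hc : c0 ∈ N := Subgroup.subset_normalClosure rfl
  have hn : N.Normal := Subgroup.normalClosure_normal
  have hu1 : (SemidirectProduct.inl u1 : W) ∈ N := c0_u1 ▸ N.pow_mem hc 70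
  have hu2 : (SemidirectProduct.inl u2 : W) ∈ N := c0_u2 ▸ N.pow_mem hc 126
  have hu3 : (SemidirectProduct.inl u3 : W) ∈ N := c0_u3 ▸ N.pow_mem hc 120
  have hact : ∀ (σ : Equiv.Perm (Fin 4)) (u : V), (SemidirectProduct.inl u : W) ∈ N →
      (SemidirectProduct.inl (mulAutArrow σ u) : W) ∈ N := by
    intro σ u hu
    rw [← conj_inl]
    exact hn.conj_mem _ hu _
  -- the vector (0,0,0,1)
  have he : (SemidirectProduct.inl (Pi.mulSingle 3 (Multiplicative.ofAdd 1) : V) : W) ∈ N := by
    have h4 : (Pi.mulSingle 3 (Multiplicative.ofAdd 1) : V) =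
        u1 * (mulAutArrow (Equiv.swap (2 : Fin 4) 3) u2 : V) *
          (u3 * (mulAutArrow (Equiv.swap (1 : Fin 4) 2) u3 : V) *
            (mulAutArrow (Equiv.swap (1 : Fin 4) 3) u3 : V)⁻¹) ^ 4 := by
      funext i
      revert i
      decide
    rw [h4]
    simp only [map_mul, map_pow, map_inv]
    exact N.mul_mem (N.mul_mem hu1 (hact _ _ hu2))
      (N.pow_mem (N.mul_mem (N.mul_mem hu3 (hact _ _ hu3)) (N.inv_mem (hact _ _ hu3))) 4)
  have hei : ∀ i : Fin 4,
      (SemidirectProduct.inl (Pi.mulSingle i (Multiplicative.ofAdd 1) : V) : W) ∈ N := by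
    intro i
    have h5 : (Pi.mulSingle i (Multiplicative.ofAdd 1) : V) =
        (mulAutArrow (Equiv.swap i 3) (Pi.mulSingle 3 (Multiplicative.ofAdd 1) : V) : V) := by
      funext j
      revert i j
      decide
    rw [h5]
    exact hact _ _ he
  have hV : ∀ u : V, (SemidirectProduct.inl u : W) ∈ N := by
    intro u
    have h6 : u = ∏ i : Fin 4, (Pi.mulSingle i (Multiplicative.ofAdd 1) : V) ^
        (Multiplicative.toAdd (u i)).val := by
      ext j
      rw [Finset.prod_apply]
      rw [Finset.prod_eq_single j]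
      · rw [Pi.pow_apply, Pi.mulSingle_eq_same, ← ofAdd_nsmul, nsmul_eq_mul, mul_one,
          ZMod.natCast_zmod_val]
        rfl
      · intro b _ hb
        rw [Pi.pow_apply, Pi.mulSingle_eq_of_ne (Ne.symm hb), one_pow]
      · intro h; exact absurd (Finset.mem_univ j) h
    have h10 : u ∈ N.comap (SemidirectProduct.inl : V →* W) := by
      rw [h6]
      exact Subgroup.prod_mem _ (fun i _ => Subgroup.pow_mem _ (Subgroup.mem_comap.mpr (hei i)) _)
    exact h10
  have hs : (SemidirectProduct.inr (Equiv.swap (0 : Fin 4) 1) : W) ∈ N := by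
    have h7 : (SemidirectProduct.inr (Equiv.swap (0 : Fin 4) 1) : W) =
        (SemidirectProduct.inl v0 : W)⁻¹ * c0 := by
      rw [eq_inv_mul_iff_mul_eq]
      exact SemidirectProduct.inl_left_mul_inr_right c0
    rw [h7]
    exact N.mul_mem (N.inv_mem (hV _)) hc
  have hS : ∀ σ : Equiv.Perm (Fin 4), (SemidirectProduct.inr σ : W) ∈ N := by
    have h8 : (⊤ : Subgroup (Equiv.Perm (Fin 4))) ≤ N.comap SemidirectProduct.inr := by
      rw [← Equiv.Perm.closure_isSwap, Subgroup.closure_le]
      rintro τ ⟨x, y, hxy, rfl⟩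
      have h9 : IsConj (Equiv.swap (0 : Fin 4) 1) (Equiv.swap x y) :=
        Equiv.Perm.isConj_swap (by decide) hxy
      rw [isConj_iff] at h9
      obtain ⟨g, hg⟩ := h9
      show (SemidirectProduct.inr (Equiv.swap x y) : W) ∈ N
      rw [← hg, map_mul, map_mul, map_inv]
      exact hn.conj_mem _ hs _
    intro σ
    exact h8 (Subgroup.mem_top σ)
  rw [eq_top_iff]
  intro x _
  rw [← SemidirectProduct.inl_left_mul_inr_right x]
  exact N.mul_mem (hV _) (hS _)

/-- There are a finite group `G` and an element `c` such that the conjugacy class of `c` generates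
`G` and every member `z` of this class commutes with some power of `c` which is not central. -/
theorem result : ∃ (G : Type) (_ : Group G) (_ : Finite G) (c : G),
    Subgroup.closure (conjugatesOf c) = ⊤ ∧
    ∀ z ∈ conjugatesOf c, ∃ k : ℤ, Commute (c ^ k) z ∧ c ^ k ∉ Subgroup.center G := by
  refine ⟨W, inferInstance, Finite.of_equiv _ SemidirectProduct.equivProd.symm, c0,
    closure_top, ?_⟩
  intro z hz
  have hz' : IsConj c0 z := hz
  rw [isConj_iff] at hz'
  obtain ⟨g, rfl⟩ := hz'
  have hr : (g * c0 * g⁻¹).right = g.right * Equiv.swap (0 : Fin 4) 1 * g.right⁻¹ := by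
    simp [c0]
  rcases cover g.right with h | h | h
  · refine ⟨(70 : ℕ), ?_, ?_⟩
    · rw [zpow_natCast, c0_u1]
      apply commute_inl_iff
      rw [hr]
      funext i
      rw [act_apply, h i]
    · rw [zpow_natCast, c0_u1]
      exact not_central u1 (Equiv.swap 2 3) 2 (by decide)
  · refine ⟨(126 : ℕ), ?_, ?_⟩
    · rw [zpow_natCast, c0_u2]
      apply commute_inl_iff
      rw [hr]
      funext i
      rw [act_apply, h i]
    · rw [zpow_natCast, c0_u2]
      exact not_central u2 (Equiv.swap 2 3) 2 (by decide)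
  · refine ⟨(120 : ℕ), ?_, ?_⟩
    · rw [zpow_natCast, c0_u3]
      apply commute_inl_iff
      rw [hr]
      funext i
      rw [act_apply, h i]
    · rw [zpow_natCast, c0_u3]
      exact not_central u3 (Equiv.swap 1 2) 1 (by decide)

end Pool.Agent.Results.MP_d14d1f_al.NoRegularCycle
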